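import Pool.Agent.helper24.BP.Model

/-!
# Module M10: guess strings turn nondeterministic machines into deterministic ones
-/

namespace Pool.Agent.helper24.BP

open Finset Classical

noncomputable section

/-- the first `k` bits -/
def res (k : ℕ) (y : ℕ → Bool) : Fin k → Bool := fun i => y i.1

/-- a choice of an element of `S` as a function of a string of `⌈log₂ |S|⌉` bits -/
theorem exists_pick {α : Type} (S : Finset α) :
    ∃ g : (ℕ → Bool) → Option α,
      (∀ y y' : ℕ → Bool, (∀ i < Nat.clog 2 S.card, y i = y' i) → g y = g y') ∧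
      (∀ y q, g y = some q → q ∈ S) ∧ ∀ q ∈ S, ∃ y, g y = some q := by
  have hcard : Fintype.card S ≤ Fintype.card (Fin (Nat.clog 2 S.card) → Bool) := by
    simpa using Nat.le_pow_clog (b := 2) (by norm_num) S.card
  obtain ⟨φ⟩ := Function.Embedding.nonempty_of_card_le hcard
  refine ⟨fun y => if h : ∃ q : S, φ q = res _ y then some (h.choose : α) else none,
    ?_, ?_, ?_⟩
  · intro y y' hyy
    have : res (Nat.clog 2 S.card) y = res (Nat.clog 2 S.card) y' :=
      funext fun i => hyy i.1 i.2
    simp only [this]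
  · intro y q hq
    by_cases h : ∃ q : S, φ q = res _ y
    · simp only [dif_pos h, Option.some.injEq] at hq
      rw [← hq]
      exact h.choose.2
    · simp only [dif_neg h] at hq
      exact absurd hq (by simp)
  · intro q hq
    refine ⟨fun i => if h : i < Nat.clog 2 S.card then φ ⟨q, hq⟩ ⟨i, h⟩ else false, ?_⟩
    have hy : res (Nat.clog 2 S.card)
        (fun i : ℕ => if h : i < Nat.clog 2 S.card then φ ⟨q, hq⟩ ⟨i, h⟩ else false) =
        φ ⟨q, hq⟩ := by
      funext i
      simp [res, i.2]
    have h : ∃ q' : S, φ q' = res (Nat.clog 2 S.card)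
        (fun i : ℕ => if h : i < Nat.clog 2 S.card then φ ⟨q, hq⟩ ⟨i, h⟩ else false) :=
      ⟨⟨q, hq⟩, hy.symm⟩
    beta_reduce
    rw [dif_pos h]
    have h3 := φ.injective (h.choose_spec.trans hy)
    rw [h3]

/-- the chosen element -/
def pick {α : Type} (S : Finset α) : (ℕ → Bool) → Option α := (exists_pick S).choose

theorem pick_congr {α : Type} (S : Finset α) {y y' : ℕ → Bool}
    (h : ∀ i < Nat.clog 2 S.card, y i = y' i) : pick S y = pick S y' :=
  (exists_pick S).choose_spec.1 y y' h

theorem pick_mem {α : Type} (S : Finset α) {y : ℕ → Bool} {q : α} (h : pick S y = some q) :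
    q ∈ S :=
  (exists_pick S).choose_spec.2.1 y q h

theorem exists_pick_eq {α : Type} (S : Finset α) {q : α} (h : q ∈ S) : ∃ y, pick S y = some q :=
  (exists_pick S).choose_spec.2.2 q h

/-- the bits of the guess string (`false` beyond the end) -/
def bit {G : ℕ} (b : Fin G → Bool) (i : ℕ) : Bool := if h : i < G then b ⟨i, h⟩ else false

/-- one step of the deterministic machine with guess string `b`, on the word sequence `x` -/
def dstep {n W : ℕ} (M : Machine n W) {G : ℕ} (b : Fin G → Bool) (x : Fin n → Fin W) :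
    Option (M.Q × Fin (G + 1)) → Option (M.Q × Fin (G + 1))
  | none => none
  | some (q, c) =>
    if q ∈ M.acc then some (q, c)
    else
      if h : c.1 + Nat.clog 2 (M.next q (x (M.query q))).card ≤ G then
        (pick (M.next q (x (M.query q))) (fun i => bit b (c.1 + i))).map fun q' =>
          (q', ⟨c.1 + Nat.clog 2 (M.next q (x (M.query q))).card, Nat.lt_succ_of_le h⟩)
      else none

/-- the position read in a state -/
def dquery {N n W : ℕ} (M : Machine n W) {G : ℕ} :
    Option (M.Q × Fin (G + 1)) → Option (Fin N ⊕ Fin N)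
  | none => none
  | some (q, _) =>
    if h : (M.query q).1 < N then some (Sum.inl ⟨(M.query q).1, h⟩)
    else if h' : (M.query q).1 - N < N then some (Sum.inr ⟨(M.query q).1 - N, h'⟩) else none

theorem emb_query {N q n W : ℕ} (e : Fin W ≃ Pt q) (M : Machine n W) {G : ℕ} (p : M.Q)
    (c : Fin (G + 1)) (z z' : Inp N q)
    (h1 : ∀ i, dquery (N := N) M (some (p, c)) = some (Sum.inl i) → z.1 i = z'.1 i)
    (h2 : ∀ j, dquery (N := N) M (some (p, c)) = some (Sum.inr j) → z.2 j = z'.2 j) :
    emb e z (M.query p) = emb e z' (M.query p) := by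
  by_cases ha : (M.query p).1 < N
  · have := h1 ⟨(M.query p).1, ha⟩ (by simp [dquery, ha])
    simp [emb, ha, this]
  · by_cases hb : (M.query p).1 - N < N
    · have := h2 ⟨(M.query p).1 - N, hb⟩ (by simp only [dquery, dif_neg ha, dif_pos hb])
      simp only [emb, dif_neg ha, dif_pos hb, this]
    · simp only [emb, dif_neg ha, dif_neg hb]

/-- the deterministic machine with guess string `b` -/
def detM {N q n W : ℕ} (e : Fin W ≃ Pt q) (M : Machine n W) {G : ℕ} (b : Fin G → Bool) :
    DMach N q (Option (M.Q × Fin (G + 1))) where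
  start := some (M.start, ⟨0, Nat.succ_pos G⟩)
  query := dquery M
  step := fun s z => dstep M b (emb e z) s
  acc := fun s => ∃ p ∈ M.acc, ∃ c, s = some (p, c)
  loc := by
    intro s z z' h1 h2
    cases s with
    | none => rfl
    | some s =>
      obtain ⟨p, c⟩ := s
      have := emb_query e M p c z z' h1 h2
      simp only [dstep, this]

theorem det_sound {N q n W : ℕ} (e : Fin W ≃ Pt q) (M : Machine n W) {G : ℕ} (b : Fin G → Bool)
    (z : Inp N q) (T : ℕ) : ∀ (p : M.Q) (c : Fin (G + 1)),
      (detM e M b).run z T = some (p, c) → ∃ T', Comp M (emb e z) T' c.1 p := by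
  induction T with
  | zero =>
    intro p c h
    simp only [DMach.run, detM, Option.some.injEq, Prod.mk.injEq] at h
    refine ⟨0, ?_⟩
    rw [← h.1, ← h.2]
    exact Comp.start
  | succ T ih =>
    intro p c h
    change dstep M b (emb e z) ((detM e M b).run z T) = some (p, c) at h
    cases hr : (detM e M b).run z T with
    | none =>
      rw [hr] at h
      simp [dstep] at h
    | some s =>
      obtain ⟨p0, c0⟩ := s
      obtain ⟨T', hT'⟩ := ih p0 c0 hr
      rw [hr] at h
      simp only [dstep] at h
      split_ifs at h with h1 h2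
      · simp only [Option.some.injEq, Prod.mk.injEq] at h
        refine ⟨T', ?_⟩
        rw [← h.1, ← h.2]
        exact hT'
      · rw [Option.map_eq_some_iff] at h
        obtain ⟨p', hp', h3⟩ := h
        simp only [Prod.mk.injEq] at h3
        refine ⟨T' + 1, ?_⟩
        rw [← h3.1, ← h3.2]
        exact Comp.step hT' (pick_mem _ hp')

theorem det_complete {N q n W : ℕ} (e : Fin W ≃ Pt q) (M : Machine n W) (G : ℕ)
    (z : Inp N q) {T' G' : ℕ} {s : M.Q} (hc : Comp M (emb e z) T' G' s) : G' ≤ G →
    ∃ y : ℕ → Bool, ∀ b : Fin G → Bool, (∀ i < G', bit b i = y i) →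
      (∃ p ∈ M.acc, ∃ c, (detM e M b).run z T' = some (p, c)) ∨
      ∃ h : G' < G + 1, (detM e M b).run z T' = some (s, ⟨G', h⟩) := by
  induction hc with
  | start =>
    intro _
    exact ⟨fun _ => false, fun b _ => Or.inr ⟨Nat.succ_pos G, rfl⟩⟩
  | @step T0 G0 s0 s1 h0 h1 ih =>
    intro hG
    obtain ⟨y, hy⟩ := ih (by omega)
    obtain ⟨y1, hy1⟩ := exists_pick_eq _ h1
    refine ⟨fun i => if i < G0 then y i else y1 (i - G0), ?_⟩
    intro b hb
    have hb0 : ∀ i < G0, bit b i = y i := by
      intro i hi
      have := hb i (by omega)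
      simpa [hi] using this
    rcases hy b hb0 with ⟨p, hp, c, hpc⟩ | ⟨hlt, hrun⟩
    · refine Or.inl ⟨p, hp, c, ?_⟩
      change dstep M b (emb e z) ((detM e M b).run z T0) = some (p, c)
      rw [hpc]
      simp [dstep, hp]
    · by_cases hacc : s0 ∈ M.acc
      · refine Or.inl ⟨s0, hacc, ⟨G0, hlt⟩, ?_⟩
        change dstep M b (emb e z) ((detM e M b).run z T0) = _
        rw [hrun]
        simp [dstep, hacc]
      · refine Or.inr ⟨by omega, ?_⟩
        change dstep M b (emb e z) ((detM e M b).run z T0) = _
        rw [hrun]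
        simp only [dstep, if_neg hacc, dif_pos hG]
        have hpk : pick (M.next s0 (emb e z (M.query s0))) (fun i => bit b (G0 + i)) =
            some s1 := by
          rw [← hy1]
          apply pick_congr
          intro i hi
          have := hb (G0 + i) (by omega)
          simpa using this
        rw [hpk]
        rfl

/-- **M10** -/
theorem nondet_cover {N q n W : ℕ} (h2N : 2 * N ≤ n) (e : Fin W ≃ Pt q) (M : Machine n W)
    (T G : ℕ) {f : (Fin n → Fin W) → Prop} (hf : Computes M f T G) :
    ∃ D : (Fin G → Bool) → DMach N q (Option (M.Q × Fin (G + 1))),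
      (∀ s z T', (D s).acc ((D s).run z T') → f (emb e z)) ∧
      (∀ z T', T ≤ T' → f (emb e z) → ∃ s, (D s).acc ((D s).run z T')) := by
  refine ⟨fun b => detM e M b, ?_, ?_⟩
  · rintro b z T' ⟨p, hp, c, hr⟩
    obtain ⟨T'', hT⟩ := det_sound e M b z T' p c hr
    exact (hf (emb e z)).1 _ _ _ hT hp
  · intro z T' hT' hfz
    obtain ⟨T1, G1, s, hT1, hG1, hs, hc⟩ := (hf (emb e z)).2 hfz
    have hT1' : T1 ≤ T := by exact_mod_cast hT1
    have hG1' : G1 ≤ G := by exact_mod_cast hG1
    obtain ⟨y, hy⟩ := det_complete e M G z hc hG1'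
    refine ⟨fun i => y i, ?_⟩
    have h1 : ∃ p ∈ M.acc, ∃ c, (detM e M (fun i : Fin G => y i)).run z T1 = some (p, c) := by
      rcases hy (fun i => y i) (by
        intro i hi
        simp [bit, show i < G by omega]) with h | ⟨h, hrun⟩
      · exact h
      · exact ⟨s, hs, _, hrun⟩
    obtain ⟨p, hp, c, hpc⟩ := h1
    have h2 : ∀ k, (detM e M (fun i : Fin G => y i)).run z (T1 + k) = some (p, c) := by
      intro k
      induction k with
      | zero => exact hpc
      | succ k ih =>
        change dstep M _ (emb e z) ((detM e M (fun i : Fin G => y i)).run z (T1 + k)) = _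
        rw [ih]
        simp [dstep, hp]
    refine ⟨p, hp, c, ?_⟩
    have := h2 (T' - T1)
    rwa [show T1 + (T' - T1) = T' by omega] at this

end

end Pool.Agent.helper24.BP
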